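import Pool.Agent.H21.HS.Targets

set_option autoImplicit false

namespace Pool.Agent.H14.HS

open Finset Pool.Agent.H21.HS

theorem sg_mul_self (a : ZMod 2) : sg a * sg a = 1 := by
  unfold sg; split_ifs <;> norm_num

theorem sg_ne (a b : ZMod 2) (h : a ≠ b) : sg a * sg b = -1 := by
  have h2 : ∀ a b : ZMod 2, a ≠ b → (a = 0 ∧ b ≠ 0) ∨ (a ≠ 0 ∧ b = 0) := by decide
  unfold sg
  rcases h2 a b h with ⟨h1, h3⟩ | ⟨h1, h3⟩ <;> simp [h1, h3]

/-- Toggling a vertex multiplies the character by its sign. -/
theorem ch_toggle {V : Type} [DecidableEq V] (T : Finset V) (S : V → ZMod 2) (u : V) :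
    ch (symmDiff T {u}) S = ch T S * sg (S u) := by
  unfold ch
  by_cases hu : u ∈ T
  · have h1 : symmDiff T {u} = T.erase u := by
      ext x
      simp only [Finset.mem_symmDiff, Finset.mem_singleton, Finset.mem_erase]
      constructor
      · rintro (⟨h1, h2⟩ | ⟨h1, h2⟩)
        · exact ⟨h2, h1⟩
        · exact absurd (h1 ▸ hu) h2
      · rintro ⟨h1, h2⟩
        exact Or.inl ⟨h2, h1⟩
    rw [h1, ← Finset.mul_prod_erase T _ hu]
    have := sg_mul_self (S u)
    calc (∏ v ∈ T.erase u, sg (S v)) = (sg (S u) * sg (S u)) * ∏ v ∈ T.erase u, sg (S v) := by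
          rw [this, one_mul]
      _ = _ := by ring
  · have h1 : symmDiff T {u} = insert u T := by
      ext x
      simp only [Finset.mem_symmDiff, Finset.mem_singleton, Finset.mem_insert]
      constructor
      · rintro (⟨h1, h2⟩ | ⟨h1, h2⟩)
        · exact Or.inr h1
        · exact Or.inl h1
      · rintro (h1 | h1)
        · exact Or.inr ⟨h1, h1 ▸ hu⟩
        · by_cases hx : x = u
          · exact absurd (hx ▸ h1) hu
          · exact Or.inl ⟨h1, hx⟩
    rw [h1, Finset.prod_insert hu]
    ring

theorem card_toggle {V : Type} [DecidableEq V] (T : Finset V) (u : V) :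
    Even (symmDiff T {u}).card ↔ ¬ Even T.card := by
  by_cases hu : u ∈ T
  · have h1 : symmDiff T {u} = T.erase u := by
      ext x
      simp only [Finset.mem_symmDiff, Finset.mem_singleton, Finset.mem_erase]
      constructor
      · rintro (⟨h1, h2⟩ | ⟨h1, h2⟩)
        · exact ⟨h2, h1⟩
        · exact absurd (h1 ▸ hu) h2
      · rintro ⟨h1, h2⟩
        exact Or.inl ⟨h2, h1⟩
    rw [h1]
    have := Finset.card_erase_add_one hu
    rw [← this, Nat.even_add_one, not_not]
  · have h1 : symmDiff T {u} = insert u T := by
      ext x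
      simp only [Finset.mem_symmDiff, Finset.mem_singleton, Finset.mem_insert]
      constructor
      · rintro (⟨h1, h2⟩ | ⟨h1, h2⟩)
        · exact Or.inr h1
        · exact Or.inl h1
      · rintro (h1 | h1)
        · exact Or.inr ⟨h1, h1 ▸ hu⟩
        · by_cases hx : x = u
          · exact absurd (hx ▸ h1) hu
          · exact Or.inl ⟨h1, hx⟩
    rw [h1, Finset.card_insert_of_notMem hu, Nat.even_add_one]

theorem subset_toggle {V : Type} [DecidableEq V] (T e : Finset V) (u : V) (hu : u ∈ e) :
    symmDiff T {u} ⊆ e ↔ T ⊆ e := by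
  constructor
  · intro h x hx
    by_cases hxu : x = u
    · exact hxu ▸ hu
    · apply h
      simp [Finset.mem_symmDiff, hx, hxu]
  · intro h x hx
    simp only [Finset.mem_symmDiff, Finset.mem_singleton] at hx
    rcases hx with ⟨h1, h2⟩ | ⟨h1, h2⟩
    · exact h h1
    · exact h1 ▸ hu

theorem avg : T_avg := by
  intro V _ e S
  unfold dl
  split_ifs with hs
  · obtain ⟨u, hu, v, hv, huv⟩ := hs
    have h0 : ∑ T ∈ ev e, ch T S = 0 := by
      have h1 : ∑ T ∈ ev e, ch T S = ∑ T ∈ ev e, - ch T S := by
        refine Finset.sum_bij (fun T _ => symmDiff (symmDiff T {u}) {v}) ?_ ?_ ?_ ?_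
        · intro T hT
          unfold ev at hT ⊢
          simp only [Finset.mem_filter, Finset.mem_powerset] at hT ⊢
          rw [subset_toggle _ _ _ hv, subset_toggle _ _ _ hu, card_toggle, card_toggle, not_not]
          exact hT
        · intro T1 _ T2 _ h
          have h2 := symmDiff_left_injective _ h
          exact symmDiff_left_injective _ h2
        · intro T hT
          refine ⟨symmDiff (symmDiff T {v}) {u}, ?_, ?_⟩
          · unfold ev at hT ⊢
            simp only [Finset.mem_filter, Finset.mem_powerset] at hT ⊢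
            rw [subset_toggle _ _ _ hu, subset_toggle _ _ _ hv, card_toggle, card_toggle, not_not]
            exact hT
          · simp
        · intro T hT
          rw [ch_toggle, ch_toggle]
          have := sg_ne _ _ huv
          calc ch T S = - (ch T S * (-1)) := by ring
            _ = - (ch T S * (sg (S u) * sg (S v))) := by rw [this]
            _ = _ := by ring
      rw [Finset.sum_neg_distrib] at h1
      linarith
    rw [Finset.sum_sub_distrib, h0]
    simp
  · push Not at hs
    rw [mul_zero]
    apply Finset.sum_eq_zero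
    intro T hT
    unfold ev at hT
    simp only [Finset.mem_filter, Finset.mem_powerset] at hT
    rcases T.eq_empty_or_nonempty with h | ⟨w, hw⟩
    · subst h
      simp [ch]
    · have h1 : ch T S = ∏ v ∈ T, sg (S w) := by
        unfold ch
        apply Finset.prod_congr rfl
        intro v hv
        rw [hs v (hT.1 hv) w (hT.1 hw)]
      rw [h1, Finset.prod_const]
      obtain ⟨k, hk⟩ := hT.2
      rw [hk, pow_add, ← mul_pow, sg_mul_self, one_pow, sub_self]

end Pool.Agent.H14.HS
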