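import Pool.Agent.H21.HS.Targets

set_option autoImplicit false

namespace Pool.Agent.H14.HS

open Finset Pool.Agent.H21.HS

theorem cnt : T_cnt := by
  intro J s c L
  classical
  calc ((s.powerset.filter (fun X => ∑ j ∈ X, c j ≤ L)).card : ℝ)
      = ∑ X ∈ s.powerset.filter (fun X => ∑ j ∈ X, c j ≤ L), (1 : ℝ) := by simp
    _ ≤ ∑ X ∈ s.powerset.filter (fun X => ∑ j ∈ X, c j ≤ L), Real.exp (L - ∑ j ∈ X, c j) := by
        apply Finset.sum_le_sum
        intro X hX
        simp only [Finset.mem_filter] at hX
        rw [← Real.exp_zero]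
        apply Real.exp_le_exp.mpr
        linarith [hX.2]
    _ ≤ ∑ X ∈ s.powerset, Real.exp (L - ∑ j ∈ X, c j) := by
        apply Finset.sum_le_sum_of_subset_of_nonneg
        · exact Finset.filter_subset _ _
        · intro X _ _
          exact (Real.exp_pos _).le
    _ = Real.exp L * ∏ j ∈ s, (1 + Real.exp (-c j)) := by
        rw [Finset.prod_one_add, Finset.mul_sum]
        apply Finset.sum_congr rfl
        intro X _
        rw [← Real.exp_sum, ← Real.exp_add, Finset.sum_neg_distrib]
        ring_nf
    _ ≤ Real.exp L * ∏ j ∈ s, Real.exp (Real.exp (-c j)) := by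
        apply mul_le_mul_of_nonneg_left _ (Real.exp_pos _).le
        apply Finset.prod_le_prod
        · intro j _
          positivity
        · intro j _
          have := Real.add_one_le_exp (Real.exp (-c j))
          linarith
    _ = Real.exp (L + ∑ j ∈ s, Real.exp (-c j)) := by
        rw [← Real.exp_sum, ← Real.exp_add]

end Pool.Agent.H14.HS
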