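import Pool.Agent.H14.HS.AVG

set_option autoImplicit false

namespace Pool.Agent.H14.HS

open Finset Pool.Agent.H21.HS

theorem sg_add (a b : ZMod 2) : sg (a + b) = sg a * sg b := by
  have h : ∀ a b : ZMod 2, (a + b = 0 ↔ (a = 0 ↔ b = 0)) := by decide
  unfold sg
  have := h a b
  by_cases ha : a = 0 <;> by_cases hb : b = 0 <;> simp_all

theorem ch_add_const {V : Type} (T : Finset V) (S S' : V → ZMod 2) (d : ZMod 2)
    (h : ∀ v ∈ T, S v = S' v + d) (hT : Even T.card) : ch T S = ch T S' := by
  unfold ch
  rw [Finset.prod_congr rfl (fun v hv => by rw [h v hv, sg_add])]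
  rw [Finset.prod_mul_distrib, Finset.prod_const]
  obtain ⟨k, hk⟩ := hT
  rw [hk, pow_add, ← mul_pow, sg_mul_self, one_pow, mul_one]

theorem det : T_det := by
  intro V _ _ N B om om' l s e h
  unfold phi
  congr 1
  apply Finset.sum_congr rfl
  intro T hT
  unfold ev at hT
  simp only [Finset.mem_filter, Finset.mem_powerset] at hT
  have h1 : emp om l s T = emp om' l s T := by
    unfold emp
    congr 1
    apply Finset.sum_congr rfl
    intro b _
    rcases T.eq_empty_or_nonempty with h2 | ⟨w, hw⟩
    · subst h2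
      simp [ch]
    · apply ch_add_const T _ _ (om l s b w + om' l s b w) _ hT.2
      intro v hv
      have h3 := h b v (hT.1 hv) w (hT.1 hw)
      have h4 : ∀ a b c d : ZMod 2, a + b = c + d → a = c + (b + d) := by decide
      exact h4 _ _ _ _ h3
  rw [h1]

end Pool.Agent.H14.HS
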