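import Pool.Agent.H21.HS.Targets

set_option autoImplicit false

namespace Pool.Agent.H14.HS

open Finset Pool.Agent.H21.HS

theorem sum_prod_mu {I W : Type} [Fintype I] [DecidableEq I] [Fintype W] (f : I → W → ℝ) :
    ∑ om : I → W, (∏ j, f j (om j)) = ∏ j, ∑ w, f j w := by
  rw [Finset.prod_univ_sum, Fintype.piFinset_univ]

theorem mean : T_mean := by
  intro I W _ _ _ mu hmu hone
  constructor
  · intro i h
    have h1 : ∀ om : I → W, (∏ j, mu j (om j)) * h (om i)
        = ∏ j, (mu j (om j) * (if j = i then h (om j) else 1)) := by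
      intro om
      rw [Finset.prod_mul_distrib]
      congr 1
      simp
    rw [Finset.sum_congr rfl (fun om _ => h1 om)]
    rw [sum_prod_mu (fun j w => mu j w * (if j = i then h w else 1))]
    rw [Finset.prod_eq_single i]
    · simp
    · intro j _ hj
      simp [hj, hone j]
    · simp
  · intro F
    by_contra hcon
    push Not at hcon
    set A := ∑ om : I → W, (∏ j, mu j (om j)) * F om with hA
    have htot : ∑ om : I → W, (∏ j, mu j (om j)) = 1 := by
      rw [sum_prod_mu]
      simp [hone]
    have hnn : ∀ om : I → W, 0 ≤ ∏ j, mu j (om j) := fun om =>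
      Finset.prod_nonneg (fun j _ => hmu j _)
    have hex : ∃ om : I → W, 0 < ∏ j, mu j (om j) := by
      by_contra hno
      push Not at hno
      have : ∑ om : I → W, (∏ j, mu j (om j)) ≤ 0 := Finset.sum_nonpos (fun om _ => hno om)
      linarith
    obtain ⟨om0, hom0⟩ := hex
    have hlt : ∑ om : I → W, (∏ j, mu j (om j)) * A
        < ∑ om : I → W, (∏ j, mu j (om j)) * F om := by
      apply Finset.sum_lt_sum
      · intro om _
        exact mul_le_mul_of_nonneg_left (hcon om).le (hnn om)
      · exact ⟨om0, Finset.mem_univ _, mul_lt_mul_of_pos_left (hcon om0) hom0⟩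
    rw [← Finset.sum_mul, htot, one_mul] at hlt
    exact lt_irrefl _ hlt

end Pool.Agent.H14.HS
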