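import Pool.Agent.H21.HS.Targets

set_option autoImplicit false

namespace Pool.Agent.H14.HS

open Finset Pool.Agent.H21.HS

theorem step (hpc : T_pc) : T_step := by
  obtain ⟨C0, hC0, H⟩ := hpc
  refine ⟨C0, hC0, ?_⟩
  intro V _ _ w ε hw hε hε1 hcard
  classical
  have hE : (Fintype.card {e : Finset V // w e ≠ 0} : ℝ)
      = ((univ.filter (fun e => w e ≠ 0)).card : ℝ) := by
    rw [Fintype.card_subtype]
  obtain ⟨x, hx1, hx2, hx3⟩ := H V {e : Finset V // w e ≠ 0} (fun e => e.1) (fun e => w e.1) ε
    (fun e => lt_of_le_of_ne (hw e.1) (Ne.symm e.2)) hε hε1 (by rw [hE]; exact hcard)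
  set X : Finset V → ℝ := fun e => if h : w e ≠ 0 then x ⟨e, h⟩ else 0 with hX
  have hXs : ∀ e : {e : Finset V // w e ≠ 0}, X e.1 = x e := by
    intro e
    simp only [hX]
    rw [dif_pos e.2]
  have hXabs : ∀ e, |X e| ≤ 1 := by
    intro e
    simp only [hX]
    split_ifs with h
    · exact hx1 _
    · simp
  have hsumX : ∀ g : Finset V → ℝ, ∑ e : {e : Finset V // w e ≠ 0}, w e.1 * g e.1
      = ∑ e, w e * g e := by
    intro g
    have h1 : ∑ e, w e * g e = ∑ e ∈ univ.filter (fun e => w e ≠ 0), w e * g e := by
      rw [Finset.sum_filter]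
      apply Finset.sum_congr rfl
      intro e _
      split_ifs with h
      · rfl
      · push Not at h
        rw [h, zero_mul]
    rw [h1]
    rw [Finset.sum_subtype (univ.filter (fun e => w e ≠ 0)) (p := fun e => w e ≠ 0) (by simp)]
  -- sign choice
  have key : ∃ σ : ℝ, (σ = 1 ∨ σ = -1) ∧
      (Fintype.card {e : Finset V // w e ≠ 0} : ℝ) / 200
        ≤ ((univ.filter (fun e : {e : Finset V // w e ≠ 0} => x e = σ)).card : ℝ) := by
    by_contra hno
    push Not at hno
    have h1 := hno 1 (Or.inl rfl)
    have h2 := hno (-1) (Or.inr rfl)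
    have h3 : ((univ.filter (fun e : {e : Finset V // w e ≠ 0} => |x e| = 1)).card : ℝ)
        ≤ ((univ.filter (fun e : {e : Finset V // w e ≠ 0} => x e = 1)).card : ℝ)
        + ((univ.filter (fun e : {e : Finset V // w e ≠ 0} => x e = -1)).card : ℝ) := by
      rw [← Nat.cast_add, Nat.cast_le]
      refine le_trans (Finset.card_le_card ?_) (Finset.card_union_le _ _)
      intro e he
      simp only [Finset.mem_filter, Finset.mem_univ, true_and, Finset.mem_union] at he ⊢
      exact (abs_eq zero_le_one).mp he
    linarith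
  obtain ⟨σ, hσ, hσc⟩ := key
  have hσ1 : |σ| = 1 := by rcases hσ with h | h <;> simp [h]
  have hσσ : σ * σ = 1 := by rcases hσ with h | h <;> simp [h]
  refine ⟨fun e => w e * (1 - σ * X e), ?_, ?_, ?_⟩
  · intro e
    apply mul_nonneg (hw e)
    have h1 : |σ * X e| ≤ 1 := by rw [abs_mul, hσ1, one_mul]; exact hXabs e
    have := (abs_le.mp h1).2
    linarith
  · -- support
    have h1 : univ.filter (fun e => w e * (1 - σ * X e) ≠ 0)
        ⊆ (univ.filter (fun e => w e ≠ 0)) \
          ((univ.filter (fun e : {e : Finset V // w e ≠ 0} => x e = σ)).map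
            (Function.Embedding.subtype _)) := by
      intro e he
      simp only [Finset.mem_filter, Finset.mem_univ, true_and, Finset.mem_sdiff, Finset.mem_map,
        Function.Embedding.subtype_apply, not_exists, not_and] at he ⊢
      have hwe : w e ≠ 0 := left_ne_zero_of_mul he
      refine ⟨hwe, ?_⟩
      intro e' he' hee
      have h2 : X e = σ := by
        rw [← hee, hXs, he']
      rw [h2, hσσ] at he
      simp at he
    have h2 : ((univ.filter (fun e : {e : Finset V // w e ≠ 0} => x e = σ)).map
            (Function.Embedding.subtype _)) ⊆ (univ.filter (fun e => w e ≠ 0)) := by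
      intro e he
      simp only [Finset.mem_map, Finset.mem_filter, Finset.mem_univ, true_and,
        Function.Embedding.subtype_apply] at he ⊢
      obtain ⟨e', _, h⟩ := he
      rw [← h]
      exact e'.2
    have h3 := Finset.card_le_card h1
    rw [Finset.card_sdiff_of_subset h2, Finset.card_map] at h3
    have h4 := Finset.card_le_card h2
    rw [Finset.card_map] at h4
    have h5 : ((univ.filter (fun e => w e * (1 - σ * X e) ≠ 0)).card : ℝ)
        ≤ ((univ.filter (fun e => w e ≠ 0)).card : ℝ)
          - ((univ.filter (fun e : {e : Finset V // w e ≠ 0} => x e = σ)).card : ℝ) := by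
      rw [← Nat.cast_sub h4]
      exact_mod_cast h3
    rw [← hE] at h5 ⊢
    linarith
  · intro S
    have h1 := hx3 S
    have h2 : ∑ e : {e : Finset V // w e ≠ 0}, x e * (w e.1 * dl e.1 S)
        = ∑ e, w e * (X e * dl e S) := by
      rw [← hsumX (fun e => X e * dl e S)]
      apply Finset.sum_congr rfl
      intro e _
      rw [hXs]
      ring
    rw [h2, hsumX (fun e => dl e S)] at h1
    have h3 : ∑ e, w e * (1 - σ * X e) * dl e S
        = ∑ e, w e * dl e S - σ * ∑ e, w e * (X e * dl e S) := by
      rw [Finset.mul_sum, ← Finset.sum_sub_distrib]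
      apply Finset.sum_congr rfl
      intro e _
      ring
    have h4 : |σ * ∑ e, w e * (X e * dl e S)| ≤ ε * ∑ e, w e * dl e S := by
      rw [abs_mul, hσ1, one_mul]
      exact h1
    have h5 := abs_le.mp h4
    simp only [h3]
    constructor
    · linarith [h5.2]
    · linarith [h5.1]

end Pool.Agent.H14.HS
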